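import Pool.Agent.L0h7.CG.App

set_option autoImplicit false

/-!
# The Atiyah conjecture for groups with bounded torsion and covers of finite cubic graphs

For every group `G`, the dimensions of the kernels of the matrices over `ℚ[G]` are exactly the
multiplicities of the eigenvalue zero of the regular covers with deck group `G` of finite connected
cubic graphs. Every nonnegative real number is such a multiplicity for a connected cubic graph over a
finitely generated solvable group; for graphs of degree at most two only sums of numbers `1 / |H|`
occur; and the Atiyah conjecture for groups with bounded torsion is a statement about these graphs.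

Outline. Every matrix over `ℤ[G]` has, up to units and an identity block, entries `0`, `g`, `-g`
only (square grid form). Three graph constructions do not change the dimension of the kernel of the
adjacency operator, because they are Schur complements: a path of length four between two halves of a
vertex (this lowers degrees to three), a path of length two between two halves of a vertex (this
changes a sign, and makes the graph connected by adding the difference of two halves of a complete
graph with voltages), and attaching a finite graph with 13 vertices whose adjacency matrix is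
invertible with an inverse that vanishes at the vertex of attachment (this raises degrees to three).
-/

noncomputable section

namespace Pool.Agent.Results.MP_54e5d7_al.CubicCovers

/-- The kernel of right multiplication by the matrix `A` on `ℓ²(G)^m`. -/
def kernel {G : Type} [Group G] {m n : ℕ} (A : Matrix (Fin m) (Fin n) (G →₀ ℂ)) :
    Set (lp (fun _ : Fin m × G => ℂ) 2) :=
  {x | ∀ (j : Fin n) (g : G),
    ∑ i : Fin m, (A i j).sum (fun h c => x (i, g * h⁻¹) * c) = 0}

open Classical in
/-- The von Neumann dimension of this kernel: the sum over `i` of one minus the squared distance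
from the basis vector at `(i, 1)` to the kernel, that is, the trace of the projection onto the
kernel. -/
def kerDim {G : Type} [Group G] {m n : ℕ} (A : Matrix (Fin m) (Fin n) (G →₀ ℂ)) : ℝ :=
  ∑ i : Fin m, (1 - (Metric.infDist
    (lp.single 2 (i, (1 : G)) (1 : ℂ) : lp (fun _ : Fin m × G => ℂ) 2) (kernel A)) ^ 2)

/-- The orders of the finite subgroups of `G` are bounded, and `d` is their least common
multiple. -/
def IsLcm (G : Type) [Group G] (d : ℕ) : Prop :=
  (∃ N : ℕ, ∀ H : Subgroup G, Finite H → Nat.card H ≤ N) ∧
    (∀ H : Subgroup G, Finite H → Nat.card H ∣ d) ∧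
    ∀ e : ℕ, (∀ H : Subgroup G, Finite H → Nat.card H ∣ e) → d ∣ e

/-- The regular cover of the graph `Q` with deck group `G` and voltages `γ` (with
`γ w v = (γ v w)⁻¹`): its vertices are the pairs `(v, g)`, and `(v, g)` is adjacent to
`(w, g γ(v, w))` for every edge `vw` of `Q`. The group `G` acts freely from the left. -/
def cover {G : Type} [Group G] {V : Type} (Q : SimpleGraph V) (γ : V → V → G) :
    SimpleGraph (V × G) where
  Adj p q := Q.Adj p.1 q.1 ∧ p.2 * γ p.1 q.1 = q.2 ∧ q.2 * γ q.1 p.1 = p.2
  symm := ⟨fun _ _ h => ⟨h.1.symm, h.2.2, h.2.1⟩⟩
  loopless := ⟨fun _ h => h.1.ne rfl⟩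

/-- The kernel of the adjacency operator of a (locally finite) graph on `V × G`: the square summable
functions whose sum over the neighbours of every vertex is zero. -/
def zeroFun {G : Type} {V : Type} (Γ : SimpleGraph (V × G)) :
    Set (lp (fun _ : V × G => ℂ) 2) :=
  {x | ∀ p, ∑ᶠ q ∈ Γ.neighborSet p, x q = 0}

open Classical in
/-- The von Neumann dimension of this kernel, that is, the multiplicity of the eigenvalue zero of
the adjacency operator: the sum over the vertices `v` of `Q` of one minus the squared distance from
the basis vector at `(v, 1)` to the kernel. -/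
def nullity {G : Type} [Group G] {V : Type} [Fintype V] (Γ : SimpleGraph (V × G)) : ℝ :=
  ∑ v : V, (1 - (Metric.infDist
    (lp.single 2 (v, (1 : G)) (1 : ℂ) : lp (fun _ : V × G => ℂ) 2) (zeroFun Γ)) ^ 2)

/-- `Q` is a connected cubic graph, `γ` are voltages, and the cover is connected if `G` is finitely
generated. -/
def Cubic {G : Type} [Group G] {V : Type} (Q : SimpleGraph V) (γ : V → V → G) : Prop :=
  Q.Connected ∧ (∀ v, (Q.neighborSet v).ncard = 3) ∧ (∀ v w, γ w v = (γ v w)⁻¹) ∧
    (Group.FG G → (cover Q γ).Connected)

open Pool.Agent.L0h7 Pool.Agent.Y477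

/-- 1. Let `G` be any group. A real number is the kernel dimension of a matrix with rational
coefficients over `G` if and only if it is the multiplicity of the eigenvalue zero of a regular cover
with deck group `G` of a finite connected cubic graph; if `G` is finitely generated, the cover can be
taken connected.
2. For the covers of a finite graph with degrees at most two, the multiplicity is a sum of at most
`|V|` numbers `1 / |H|`, `H` a finite subgroup of `G`.
3. Every real number `r ≥ 0` is the multiplicity of the eigenvalue zero of a connected cover of a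
finite cubic graph whose deck group is finitely generated and solvable, with all elements of finite
order of order at most two.
4. Let `C` be a class of groups which is closed under direct products and under free products with
free groups of finite rank, for example the class of all groups. The Atiyah conjecture over `ℂ`
holds for all groups of `C` with bounded torsion if and only if the numbers `d` times the
multiplicity, for the covers of finite connected cubic graphs with these deck groups, avoid some
interval `(a, b)` with `0 ≤ a < b`. -/
theorem result :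
    (∀ (G : Type) [Group G] (r : ℝ),
      (∃ (m n : ℕ) (A : Matrix (Fin m) (Fin n) (G →₀ ℂ)),
        (∀ i j g, ∃ q : ℚ, A i j g = q) ∧ kerDim A = r) ↔
      ∃ (V : Type) (_ : Fintype V) (Q : SimpleGraph V) (γ : V → V → G), Cubic Q γ ∧
        nullity (cover Q γ) = r) ∧
    (∀ (G : Type) [Group G] (V : Type) [Fintype V] (Q : SimpleGraph V)
      (γ : V → V → G), (∀ v w, γ w v = (γ v w)⁻¹) → (∀ v, (Q.neighborSet v).ncard ≤ 2) →
        ∃ (n : ℕ) (H : Fin n → Subgroup G), n ≤ Fintype.card V ∧ (∀ i, Finite (H i)) ∧
          nullity (cover Q γ) = ∑ i, (Nat.card (H i) : ℝ)⁻¹) ∧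
    (∀ r : ℝ, 0 ≤ r → ∃ (G : Type) (_ : Group G), Group.FG G ∧ Group.IsSolvable G ∧
      (∀ g : G, IsOfFinOrder g → g ^ 2 = 1) ∧
      ∃ (V : Type) (_ : Fintype V) (Q : SimpleGraph V) (γ : V → V → G), Cubic Q γ ∧
        nullity (cover Q γ) = r) ∧
    ∀ C : (G : Type) → [Group G] → Prop,
      (∀ (G H : Type) [Group G] [Group H], C G → C H → C (G × H)) →
      (∀ (G : Type) [Group G] (m : ℕ), C G → C (Monoid.Coprod G (FreeGroup (Fin m)))) →
      ((∀ (G : Type) [Group G], C G → ∀ d : ℕ, IsLcm G d →
        ∀ (m n : ℕ) (A : Matrix (Fin m) (Fin n) (G →₀ ℂ)), ∃ z : ℤ, (d : ℝ) * kerDim A = z) ↔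
      ∃ a b : ℝ, 0 ≤ a ∧ a < b ∧ ∀ (G : Type) [Group G], C G → ∀ d : ℕ, IsLcm G d →
        ∀ (V : Type) [Fintype V] (Q : SimpleGraph V) (γ : V → V → G), Cubic Q γ →
          ¬ (a < (d : ℝ) * nullity (cover Q γ) ∧ (d : ℝ) * nullity (cover Q γ) < b)) := by
  refine ⟨fun G _ r => ⟨?_, ?_⟩, ?_, ?_, ?_⟩
  · rintro ⟨m, n, A, hA, rfl⟩
    exact CG.good_of_rat A hA
  · rintro ⟨V, _, Q, γ, hQ, rfl⟩
    obtain ⟨m, A, hA, h⟩ := CG.kerDim_of_null Q γ hQ.2.2.1
    refine ⟨m, m, A, fun i j g => ?_, h⟩
    obtain ⟨z, hz⟩ := hA i j g
    exact ⟨z, by rw [hz]; simp⟩
  · intro G _ V _ Q γ hγ hd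
    exact CG.null_two Q γ hγ hd
  · intro r hr
    exact CG.all_real r hr
  · intro C hprod hfree
    exact CG.gap_class C hprod hfree

end Pool.Agent.Results.MP_54e5d7_al.CubicCovers
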