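import Pool.Agent.L0h7.TC.App
import Pool.Agent.L0h19.TC.Deg
import Pool.Agent.L0h60.TC.Conn

set_option autoImplicit false

/-!
# The Atiyah conjecture for groups with bounded torsion and second `L²`-Betti numbers of complexes
with two or three triangles at every edge

For every group `G`, the dimensions of the kernels of the matrices over `ℚ[G]` are exactly the
second `L²`-Betti numbers of the regular covers with deck group `G` of finite connected
2-dimensional simplicial complexes all of whose edges lie in two or three triangles. Every
nonnegative real number is such a Betti number over a finitely generated solvable group. If every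
edge lies in at most two triangles, only sums of numbers `1 / |H|` occur.

Outline. By `CubicCovers` kernel dimensions are nullities of covers of cubic graphs. Over a cubic
graph put a circle with three edges at every vertex, and for every vertex a pair of pants whose
boundary circles are the circles of the three neighbours; so three triangles meet at the edges of the
circles, and two at all other edges. A 2-cycle is constant on every pair of pants, and its boundary on
the circles is the adjacency operator. Projective planes, which carry no cycles, make the complex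
connected.
-/

noncomputable section

namespace Pool.Agent.Results.MP_54e5d7_al.SecondBetti

/-- The kernel of right multiplication by the matrix `A` on `ℓ²(G)^m`. -/
def kernel {G : Type} [Group G] {m n : ℕ} (A : Matrix (Fin m) (Fin n) (G →₀ ℂ)) :
    Set (lp (fun _ : Fin m × G => ℂ) 2) :=
  {x | ∀ (j : Fin n) (g : G),
    ∑ i : Fin m, (A i j).sum (fun h c => x (i, g * h⁻¹) * c) = 0}

open Classical in
/-- The von Neumann dimension of this kernel: the sum over `i` of one minus the squared distance
from the basis vector at `(i, 1)` to the kernel, that is, the trace of the projection onto the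
kernel. -/
def kerDim {G : Type} [Group G] {m n : ℕ} (A : Matrix (Fin m) (Fin n) (G →₀ ℂ)) : ℝ :=
  ∑ i : Fin m, (1 - (Metric.infDist
    (lp.single 2 (i, (1 : G)) (1 : ℂ) : lp (fun _ : Fin m × G => ℂ) 2) (kernel A)) ^ 2)

/-- The orders of the finite subgroups of `G` are bounded, and `d` is their least common
multiple. -/
def IsLcm (G : Type) [Group G] (d : ℕ) : Prop :=
  (∃ N : ℕ, ∀ H : Subgroup G, Finite H → Nat.card H ≤ N) ∧
    (∀ H : Subgroup G, Finite H → Nat.card H ∣ d) ∧
    ∀ e : ℕ, (∀ H : Subgroup G, Finite H → Nat.card H ∣ e) → d ∣ e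

/-- The graph whose edges are the edges of the triangles of `K`. -/
def edgeGraph {X : Type} (K : Set (Set X)) : SimpleGraph X where
  Adj u v := u ≠ v ∧ ∃ w, ({u, v, w} : Set X) ∈ K
  symm := ⟨fun u v h => ⟨h.1.symm, by
    obtain ⟨w, hw⟩ := h.2
    exact ⟨w, by rw [Set.insert_comm]; exact hw⟩⟩⟩
  loopless := ⟨fun _ h => h.1 rfl⟩

/-- The regular cover of the graph `Q` with deck group `G` and voltages `γ` (with
`γ w v = (γ v w)⁻¹`): its vertices are the pairs `(v, g)`, and `(v, g)` is adjacent to
`(w, g γ(v, w))` for every edge `vw` of `Q`. The group `G` acts freely from the left. -/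
def cover {G : Type} [Group G] {V : Type} (Q : SimpleGraph V) (γ : V → V → G) :
    SimpleGraph (V × G) where
  Adj p q := Q.Adj p.1 q.1 ∧ p.2 * γ p.1 q.1 = q.2 ∧ q.2 * γ q.1 p.1 = p.2
  symm := ⟨fun _ _ h => ⟨h.1.symm, h.2.2, h.2.1⟩⟩
  loopless := ⟨fun _ h => h.1.ne rfl⟩

/-- `K` is the set of triangles of a connected 2-dimensional complex with vertex set `X`, every edge
of which lies in two or three triangles; `γ` are voltages on the edges with trivial product around
every triangle, so that they define a regular cover of the complex with deck group `G`; and this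
cover is connected if `G` is finitely generated. -/
def TwoThree {G : Type} [Group G] {X : Type} (K : Set (Set X)) (γ : X → X → G) : Prop :=
  (∀ T ∈ K, T.ncard = 3) ∧
  (∀ u v w, ({u, v, w} : Set X) ∈ K → 2 ≤ {x | ({u, v, x} : Set X) ∈ K}.ncard ∧
    {x | ({u, v, x} : Set X) ∈ K}.ncard ≤ 3) ∧
  (∀ u v, γ v u = (γ u v)⁻¹) ∧ (∀ u v w, ({u, v, w} : Set X) ∈ K → γ u v * γ v w = γ u w) ∧
  (edgeGraph K).Connected ∧ (Group.FG G → (cover (edgeGraph K) γ).Connected)

/-- `x` is a simplicial 2-cycle of the cover of the complex `K` given by the voltages `γ`: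
`x ((u, v, w), g)` is the coefficient of the oriented triangle with the vertices `(u, g)`,
`(v, g γ(u, v))`, `(w, g γ(u, w))`. It is zero if `uvw` is not a triangle of `K`, changes its sign
if two vertices are exchanged, and the sum of the coefficients of the triangles at every oriented
edge is zero. -/
def IsCycle {G X : Type} [Group G] [Fintype X] (K : Set (Set X)) (γ : X → X → G)
    (x : (X × X × X) × G → ℂ) : Prop :=
  (∀ u v w g, ({u, v, w} : Set X) ∉ K → x ((u, v, w), g) = 0) ∧
  (∀ u v w g, x ((u, w, v), g) = - x ((u, v, w), g)) ∧
  (∀ u v w g, x ((v, u, w), g * γ u v) = - x ((u, v, w), g)) ∧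
  ∀ u v g, ∑ w, x ((u, v, w), g) = 0

/-- The square summable simplicial 2-cycles of the cover. -/
def cycles {G X : Type} [Group G] [Fintype X] (K : Set (Set X)) (γ : X → X → G) :
    Set (lp (fun _ : (X × X × X) × G => ℂ) 2) :=
  {x | IsCycle K γ x}

open Classical in
/-- The second `L²`-Betti number of the cover with respect to `G`, that is, the von Neumann
dimension of the space of square summable 2-cycles: the sum over the triples `t` of one minus the
squared distance from the basis vector at `(t, 1)` to this space. -/
def betti2 {G X : Type} [Group G] [Fintype X] (K : Set (Set X)) (γ : X → X → G) : ℝ :=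
  ∑ t : X × X × X, (1 - (Metric.infDist (lp.single 2 (t, (1 : G)) (1 : ℂ) :
    lp (fun _ : (X × X × X) × G => ℂ) 2) (cycles K γ)) ^ 2)

open Pool.Agent.L0h7

/-- 1. Let `G` be any group. A real number is the kernel dimension of a matrix with rational
coefficients over `G` if and only if it is the second `L²`-Betti number of a regular cover with deck
group `G` of a finite connected 2-complex, all of whose edges lie in two or three triangles; if `G`
is finitely generated, the cover can be taken connected.
2. If every edge of a finite 2-complex lies in at most two triangles, then the second `L²`-Betti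
number of its cover is a sum of numbers `1 / |H|`, `H` a finite subgroup of `G`.
3. Every real number `r ≥ 0` is the second `L²`-Betti number of a connected cover as in 1 whose deck
group is finitely generated and solvable, with all elements of finite order of order at most two.
4. Let `C` be a class of groups which is closed under direct products and under free products with
free groups of finite rank, for example the class of all groups. The Atiyah conjecture over `ℂ`
holds for all groups of `C` with bounded torsion if and only if the numbers `d` times the second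
`L²`-Betti number, for the covers as in 1 with these deck groups, avoid some interval `(a, b)` with
`0 ≤ a < b`. -/
theorem result :
    (∀ (G : Type) [Group G] (r : ℝ),
      (∃ (m n : ℕ) (A : Matrix (Fin m) (Fin n) (G →₀ ℂ)),
        (∀ i j g, ∃ q : ℚ, A i j g = q) ∧ kerDim A = r) ↔
      ∃ (X : Type) (_ : Fintype X) (K : Set (Set X)) (γ : X → X → G), TwoThree K γ ∧
        betti2 K γ = r) ∧
    (∀ (G : Type) [Group G] (X : Type) [Fintype X] (K : Set (Set X)) (γ : X → X → G),
      (∀ T ∈ K, T.ncard = 3) → (∀ u v, u ≠ v → {w | ({u, v, w} : Set X) ∈ K}.ncard ≤ 2) →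
        ∃ (n : ℕ) (H : Fin n → Subgroup G), (∀ i, Finite (H i)) ∧
          betti2 K γ = ∑ i, (Nat.card (H i) : ℝ)⁻¹) ∧
    (∀ r : ℝ, 0 ≤ r → ∃ (G : Type) (_ : Group G), Group.FG G ∧ Group.IsSolvable G ∧
      (∀ g : G, IsOfFinOrder g → g ^ 2 = 1) ∧
      ∃ (X : Type) (_ : Fintype X) (K : Set (Set X)) (γ : X → X → G), TwoThree K γ ∧
        betti2 K γ = r) ∧
    ∀ C : (G : Type) → [Group G] → Prop,
      (∀ (G H : Type) [Group G] [Group H], C G → C H → C (G × H)) →
      (∀ (G : Type) [Group G] (m : ℕ), C G → C (Monoid.Coprod G (FreeGroup (Fin m)))) →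
      ((∀ (G : Type) [Group G], C G → ∀ d : ℕ, IsLcm G d →
        ∀ (m n : ℕ) (A : Matrix (Fin m) (Fin n) (G →₀ ℂ)), ∃ z : ℤ, (d : ℝ) * kerDim A = z) ↔
      ∃ a b : ℝ, 0 ≤ a ∧ a < b ∧ ∀ (G : Type) [Group G], C G → ∀ d : ℕ, IsLcm G d →
        ∀ (X : Type) [Fintype X] (K : Set (Set X)) (γ : X → X → G), TwoThree K γ →
          ¬ (a < (d : ℝ) * betti2 K γ ∧ (d : ℝ) * betti2 K γ < b)) := by
  refine ⟨fun G _ r => ⟨?_, ?_⟩, ?_, ?_, ?_⟩
  · rintro ⟨m, n, A, hA, rfl⟩
    exact TC.good2_of_rat L0h19.TC.s_deg L0h60.TC.s_conn L0h60.TC.s_conn0 A hA
  · rintro ⟨X, _, K, γ, _, rfl⟩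
    classical
    obtain ⟨m, n, A, hA, h⟩ := TC.kerDim_of_betti K γ
    refine ⟨m, n, A, fun i j g => ?_, h⟩
    obtain ⟨z, hz⟩ := hA i j g
    exact ⟨z, by rw [hz]; simp⟩
  · intro G _ X _ K γ hK h2
    classical
    exact TC.betti_two K γ hK h2
  · intro r hr
    exact TC.all_real L0h19.TC.s_deg L0h60.TC.s_conn L0h60.TC.s_conn0 r hr
  · intro C hprod hfree
    exact TC.gap_class L0h19.TC.s_deg L0h60.TC.s_conn L0h60.TC.s_conn0 C hprod hfree

end Pool.Agent.Results.MP_54e5d7_al.SecondBetti
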