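import Pool.Agent.L0h7.TE.App

set_option autoImplicit false

/-!
# The Atiyah conjecture and the eigenvalues of trees

Let `λ` be an eigenvalue of a finite tree. (By a theorem of Salez these are exactly the totally real
algebraic integers, so that `ℚ(λ)` is an arbitrary totally real number field.) For every group `G` the
dimensions of the kernels of the matrices over `ℚ(λ)[G]` are exactly the multiplicities of the
eigenvalue `λ` of the regular covers with deck group `G` of finite connected graphs of small degree,
and the covers can be taken connected (for finitely generated `G`) and of large girth.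

Outline. Entries `λ g` are moved to the diagonal of a self-adjoint matrix with the entries `0`, `g`,
`-g` outside the diagonal and `0`, `λ`, `-λ` (and `-2`) on the diagonal, by Schur complements; all
signs, large degrees and short cycles are then removed by the graph constructions which do not change
the kernel dimension. A minimal tree `T` with the eigenvalue `λ` has the property that
`aᵗ (λ - T')⁻¹ a = λ`, where `T'` is `T` without a leaf and `a` is the edge at this leaf; so attaching
`k` copies of `T'` to a vertex adds `k λ` to the diagonal entry `-λ` of the matrix of `Γ - λ`.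
-/

noncomputable section

namespace Pool.Agent.Results.MP_54e5d7_al.TreeEigenvalues

/-- The orders of the finite subgroups of `G` are bounded, and `d` is their least common
multiple. -/
def IsLcm (G : Type) [Group G] (d : ℕ) : Prop :=
  (∃ N : ℕ, ∀ H : Subgroup G, Finite H → Nat.card H ≤ N) ∧
    (∀ H : Subgroup G, Finite H → Nat.card H ∣ d) ∧
    ∀ e : ℕ, (∀ H : Subgroup G, Finite H → Nat.card H ∣ e) → d ∣ e

/-- The kernel of right multiplication by the matrix `A` on `ℓ²(G)^K`. -/
def kernel {G : Type} [Group G] {K L : Type} [Fintype K] (A : Matrix K L (MonoidAlgebra ℂ G)) :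
    Set (lp (fun _ : K × G => ℂ) 2) :=
  {x | ∀ (j : L) (g : G), ∑ i : K, (A i j).coeff.sum (fun h c => x (i, g * h⁻¹) * c) = 0}

open Classical in
/-- The von Neumann dimension of this kernel: the sum over `i` of one minus the squared distance
from the basis vector at `(i, 1)` to the kernel, that is, the trace of the projection onto the
kernel. -/
def kerDim {G : Type} [Group G] {K L : Type} [Fintype K] (A : Matrix K L (MonoidAlgebra ℂ G)) : ℝ :=
  ∑ i : K, (1 - (Metric.infDist
    (lp.single 2 (i, (1 : G)) (1 : ℂ) : lp (fun _ : K × G => ℂ) 2) (kernel A)) ^ 2)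

/-- The regular cover of the graph `Q` with deck group `G` and voltages `γ` (with
`γ w v = (γ v w)⁻¹`): its vertices are the pairs `(v, g)`, and `(v, g)` is adjacent to
`(w, g γ(v, w))` for every edge `vw` of `Q`. The group `G` acts freely from the left. -/
def cover {G : Type} [Group G] {V : Type} (Q : SimpleGraph V) (γ : V → V → G) :
    SimpleGraph (V × G) where
  Adj p q := Q.Adj p.1 q.1 ∧ p.2 * γ p.1 q.1 = q.2 ∧ q.2 * γ q.1 p.1 = p.2
  symm := ⟨fun _ _ h => ⟨h.1.symm, h.2.2, h.2.1⟩⟩
  loopless := ⟨fun _ h => h.1.ne rfl⟩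

/-- The eigenspace of the adjacency operator of a (locally finite) graph on `V × G`: the square
summable functions `x` whose sum over the neighbours of every vertex `p` is `z x(p)`. -/
def eigenspace {G : Type} {V : Type} (Γ : SimpleGraph (V × G)) (z : ℂ) :
    Set (lp (fun _ : V × G => ℂ) 2) :=
  {x | ∀ p, ∑ᶠ q ∈ Γ.neighborSet p, x q = z * x p}

open Classical in
/-- The von Neumann dimension of the eigenspace, that is, the multiplicity of the eigenvalue `z` of
the adjacency operator: the sum over the vertices `v` of `Q` of one minus the squared distance from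
the basis vector at `(v, 1)` to the eigenspace. -/
def mult {G : Type} [Group G] {V : Type} [Fintype V] (Γ : SimpleGraph (V × G)) (z : ℂ) : ℝ :=
  ∑ v : V, (1 - (Metric.infDist
    (lp.single 2 (v, (1 : G)) (1 : ℂ) : lp (fun _ : V × G => ℂ) 2) (eigenspace Γ z)) ^ 2)

/-- The real number `l` is an eigenvalue of a finite forest with all degrees at most `D`
(equivalently of such a tree, a component of the forest). -/
def TreeEigenvalue (D : ℕ) (l : ℝ) : Prop :=
  ∃ (W : Type) (_ : Fintype W) (T : SimpleGraph W) (f : W → ℝ), T.IsAcyclic ∧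
    (∀ w, (T.neighborSet w).ncard ≤ D) ∧ (∃ w, f w ≠ 0) ∧
    ∀ w, ∑ᶠ u ∈ T.neighborSet w, f u = l * f w

/-- `Q` is a connected graph of degree at most `D`, `γ` are voltages, the cover is connected if `G`
is finitely generated, and all cycles of the cover are longer than `n`. -/
def Fine {G : Type} [Group G] {V : Type} (Q : SimpleGraph V) (γ : V → V → G) (D n : ℕ) : Prop :=
  Q.Connected ∧ (∀ v, (Q.neighborSet v).ncard ≤ D) ∧ (∀ v w, γ w v = (γ v w)⁻¹) ∧
    (Group.FG G → (cover Q γ).Connected) ∧
    ∀ (p : V × G) (c : (cover Q γ).Walk p p), c.IsCycle → n < c.length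

open Pool.Agent.L0h7 Pool.Agent.Y477 TH57.Thr.Ati

theorem kerDim_kap {G : Type} [Group G] {K L : Type} [Fintype K] [Fintype L] [i1 : DecidableEq K]
    [DecidableEq L] (A : Matrix K L (MonoidAlgebra ℂ G)) : kerDim A = kap A := by
  have h : i1 = fun a b => Classical.propDecidable (a = b) := Subsingleton.elim _ _
  rw [← kerC_dim A]
  subst h
  rfl

theorem kerDim_fin {G : Type} [Group G] {m n : ℕ} (A : Matrix (Fin m) (Fin n) (MonoidAlgebra ℂ G)) :
    kerDim A = Pool.Agent.W656.VA.kerDim fun i j => (A i j).coeff := by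
  rw [kerDim_kap, AV.kerDim_kap]
  rfl

theorem kerDim_fin' {G : Type} [Group G] {m n : ℕ} (A : Matrix (Fin m) (Fin n) (G →₀ ℂ)) :
    Pool.Agent.W656.VA.kerDim A = kerDim (Matrix.of fun i j => MonoidAlgebra.ofCoeff (A i j)) := by
  rw [kerDim_kap, AV.kerDim_kap]
  rfl

/-- the correspondence -/
theorem corr {D : ℕ} {l : ℝ} (hD : 4 ≤ D) (hl : TreeEigenvalue D l) (n : ℕ) (G : Type) [Group G]
    (r : ℝ) :
    (∃ (a b : ℕ) (A : Matrix (Fin a) (Fin b) (MonoidAlgebra ℂ G)),
      (∀ i j g, (A i j).coeff g ∈ Subfield.closure {(l : ℂ)}) ∧ kerDim A = r) ↔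
    ∃ (V : Type) (_ : Fintype V) (Q : SimpleGraph V) (γ : V → V → G), Fine Q γ D n ∧
      mult (cover Q γ) l = r := by
  constructor
  · rintro ⟨a, b, A, hA, rfl⟩
    obtain ⟨V, i, Q, γ, h1, h2⟩ := TE.fine_of_field hD hl n (fun i j => (A i j).coeff) hA
    exact ⟨V, i, Q, γ, h1, by rw [kerDim_fin]; exact h2⟩
  · rintro ⟨V, _, Q, γ, hQ, rfl⟩
    obtain ⟨m, A, hA, h⟩ := TE.mult_mat l Q γ hQ.2.2.1
    refine ⟨m, m, Matrix.of fun i j => MonoidAlgebra.ofCoeff (A i j), fun i j g => ?_, ?_⟩
    · exact Subring.closure_le (t := (Subfield.closure {(l : ℂ)}).toSubring).2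
        Subfield.subset_closure (hA i j g)
    · rw [← kerDim_fin']
      exact h

/-- Let `D ≥ 4`, let `l` be an eigenvalue of a finite forest with all degrees at most `D`, and let
`n` be given.
1. Let `G` be any group. A real number is the kernel dimension of a matrix over `ℚ(l)[G]` if and only
if it is the multiplicity of the eigenvalue `l` of a regular cover with deck group `G` of a finite
connected graph of degree at most `D`, where all cycles of the cover are longer than `n`, and the
cover is connected if `G` is finitely generated.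
2. Let `G` be a group with bounded torsion, and let `d` be the least common multiple of the orders of
its finite subgroups. `G` satisfies the Atiyah conjecture with coefficients in `ℚ(l)` if and only if
`d` times the multiplicity of `l` is an integer for all covers as in 1.
3. Every real number `r ≥ 0` is the multiplicity of the eigenvalue `l` of a cover as in 1 over a
finitely generated solvable group in which all elements of finite order have order at most two.
4. Let `C` be a class of groups which is closed under direct products and under free products with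
free groups of finite rank, for example the class of all groups. The Atiyah conjecture over `ℂ` holds
for all groups of `C` with bounded torsion if and only if the numbers `d` times the multiplicity of
`l`, for the covers as in 1 over these groups, avoid some interval `(a, b)` with `0 ≤ a < b`. -/
theorem result (D : ℕ) (l : ℝ) (hD : 4 ≤ D) (hl : TreeEigenvalue D l) (n : ℕ) :
    (∀ (G : Type) [Group G] (r : ℝ),
      (∃ (a b : ℕ) (A : Matrix (Fin a) (Fin b) (MonoidAlgebra ℂ G)),
        (∀ i j g, (A i j).coeff g ∈ Subfield.closure {(l : ℂ)}) ∧ kerDim A = r) ↔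
      ∃ (V : Type) (_ : Fintype V) (Q : SimpleGraph V) (γ : V → V → G), Fine Q γ D n ∧
        mult (cover Q γ) l = r) ∧
    (∀ (G : Type) [Group G] (d : ℕ), IsLcm G d →
      ((∀ (a b : ℕ) (A : Matrix (Fin a) (Fin b) (MonoidAlgebra ℂ G)),
        (∀ i j g, (A i j).coeff g ∈ Subfield.closure {(l : ℂ)}) →
          ∃ k : ℤ, (d : ℝ) * kerDim A = k) ↔
      ∀ (V : Type) [Fintype V] (Q : SimpleGraph V) (γ : V → V → G), Fine Q γ D n →
        ∃ k : ℤ, (d : ℝ) * mult (cover Q γ) l = k)) ∧
    (∀ r : ℝ, 0 ≤ r → ∃ (G : Type) (_ : Group G), Group.FG G ∧ Group.IsSolvable G ∧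
      (∀ g : G, IsOfFinOrder g → g ^ 2 = 1) ∧
      ∃ (V : Type) (_ : Fintype V) (Q : SimpleGraph V) (γ : V → V → G), Fine Q γ D n ∧
        mult (cover Q γ) l = r) ∧
    ∀ C : (G : Type) → [Group G] → Prop,
      (∀ (G H : Type) [Group G] [Group H], C G → C H → C (G × H)) →
      (∀ (G : Type) [Group G] (m : ℕ), C G → C (Monoid.Coprod G (FreeGroup (Fin m)))) →
      ((∀ (G : Type) [Group G], C G → ∀ d : ℕ, IsLcm G d →
        ∀ (a b : ℕ) (A : Matrix (Fin a) (Fin b) (MonoidAlgebra ℂ G)),
          ∃ k : ℤ, (d : ℝ) * kerDim A = k) ↔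
      ∃ a b : ℝ, 0 ≤ a ∧ a < b ∧ ∀ (G : Type) [Group G], C G → ∀ d : ℕ, IsLcm G d →
        ∀ (V : Type) [Fintype V] (Q : SimpleGraph V) (γ : V → V → G), Fine Q γ D n →
          ¬ (a < (d : ℝ) * mult (cover Q γ) l ∧ (d : ℝ) * mult (cover Q γ) l < b)) := by
  classical
  refine ⟨fun G _ r => corr hD hl n G r, ?_, ?_, ?_⟩
  · intro G _ d _
    constructor
    · intro h V _ Q γ hQ
      obtain ⟨a, b, A, hA, hr⟩ := (corr hD hl n G _).2 ⟨V, inferInstance, Q, γ, hQ, rfl⟩
      obtain ⟨k, hk⟩ := h a b A hA
      exact ⟨k, by rw [← hk, hr]⟩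
    · intro h a b A hA
      obtain ⟨V, i, Q, γ, hQ, hr⟩ := (corr hD hl n G _).1 ⟨a, b, A, hA, rfl⟩
      obtain ⟨k, hk⟩ := h V Q γ hQ
      exact ⟨k, by rw [← hk, hr]⟩
  · intro r hr
    exact TE.all_real_fine r hr hD hl n
  · intro C hprod hfree
    constructor
    · intro h1
      refine ⟨0, 1, le_rfl, one_pos, ?_⟩
      rintro G _ hG d hd V _ Q γ hQ ⟨h3, h4⟩
      obtain ⟨a, b, A, hA, hr⟩ := (corr hD hl n G _).2 ⟨V, inferInstance, Q, γ, hQ, rfl⟩
      obtain ⟨z, hz⟩ := h1 G hG d hd a b A
      rw [← hr, hz] at h3 h4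
      have h5 : 0 < z := by exact_mod_cast h3
      have h6 : z < 1 := by exact_mod_cast h4
      omega
    · rintro ⟨a, b, ha, hab, h2⟩ G _ hG d hd m n' A
      rw [kerDim_fin]
      exact TE.gap_fine C hprod hfree hD hl n
        ⟨a, b, ha, hab, fun G _ hG d hd V _ Q γ hQ => h2 G hG d hd V Q γ hQ⟩ G hG d hd m n' _

end Pool.Agent.Results.MP_54e5d7_al.TreeEigenvalues
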